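import Pool.Agent.H72.Jordan.Basic

/-!
A Jordan type theorem for faithful Heilbronn class functions.
-/

open Finset

namespace Pool.Agent.H72.Jordan

open Pool.Agent.H7.HB Pool.Agent.H72.Cover

variable {G : Type} [Group G] {θ : G → ℂ}

theorem comm_pow {b x c : G} (hc : b * x * b⁻¹ * x⁻¹ = c) (hcx : Commute c x) (k : ℕ) :
    b * x ^ k * b⁻¹ * (x ^ k)⁻¹ = c ^ k := by
  have h1 : b * x * b⁻¹ = c * x := by rw [← hc]; group
  have h2 : b * x ^ k * b⁻¹ = (b * x * b⁻¹) ^ k := by rw [conj_pow]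
  rw [h2, h1, hcx.mul_pow, mul_inv_cancel_right]

theorem pow_relIndex_mem [Finite G] {N D : Subgroup G} (hN : ∀ x ∈ D, ∀ n ∈ N, x * n * x⁻¹ ∈ N)
    {x : G} (hx : x ∈ D) : x ^ N.relIndex D ∈ N := by
  have : (N.subgroupOf D).Normal := by
    refine ⟨fun n hn g => ?_⟩
    rw [Subgroup.mem_subgroupOf] at hn ⊢
    exact hN g g.2 n hn
  have h1 := Subgroup.pow_index_mem (N.subgroupOf D) ⟨x, hx⟩
  rw [Subgroup.mem_subgroupOf] at h1
  exact h1

/-- **Commutator bound.** -/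
theorem comm_bound [Finite G] (h : Heil θ) {r : ℕ} (hr : θ 1 = r) (A N D K H : Subgroup G)
    (hA : ∀ a ∈ A, ∀ b ∈ A, a * b = b * a) (hfa : ∀ a ∈ A, θ a = θ 1 → a = 1)
    (hcent : ∀ a ∈ A, ∀ d ∈ D, a * d = d * a)
    (hN : ∀ x ∈ D, ∀ n ∈ N, x * n * x⁻¹ ∈ N)
    (hK : ∀ x ∈ K, ∀ d ∈ D, x * d * x⁻¹ * d⁻¹ ∈ A) (hKN : ∀ x ∈ K, ∀ n ∈ N, x * n = n * x)
    (hH : ∀ x ∈ K, ∀ y ∈ K, (∀ d ∈ D, x * d * x⁻¹ * d⁻¹ = y * d * y⁻¹ * d⁻¹) → x⁻¹ * y ∈ H) :
    H.relIndex K ≤ (N.relIndex D ^ r) ^ N.relIndex D := by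
  classical
  set e := N.relIndex D with he
  have he0 : e ≠ 0 := by
    rw [he]
    exact Subgroup.index_ne_zero_of_finite
  have htor : ∀ x ∈ K, ∀ d ∈ D, (x * d * x⁻¹ * d⁻¹) ^ e = 1 := by
    intro x hx d hd
    have hc : Commute (x * d * x⁻¹ * d⁻¹) d := hcent _ (hK x hx d hd) d hd
    rw [← comm_pow rfl hc e]
    have h1 : d ^ e ∈ N := pow_relIndex_mem hN hd
    have h2 := hKN x hx _ h1
    rw [h2]; group
  let Q := D ⧸ N.subgroupOf D
  let f : G → (Q → {a : G // a ∈ A ∧ a ^ e = 1}) := fun x q =>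
    if hx : x ∈ K then ⟨x * (q.out : D) * x⁻¹ * ((q.out : D) : G)⁻¹,
      hK x hx _ (q.out : D).2, htor x hx _ (q.out : D).2⟩ else ⟨1, one_mem _, one_pow _⟩
  have hcard := relIndex_le_of_fun (H := H) (K := K) f (by
    intro x hx y hy hxy
    refine hH x hx y hy (fun d hd => ?_)
    let q : Q := QuotientGroup.mk (⟨d, hd⟩ : D)
    have h1 := congrArg Subtype.val (congrFun hxy q)
    simp only [f, dif_pos hx, dif_pos hy] at h1
    obtain ⟨n, hn⟩ := QuotientGroup.mk_out_eq_mul (N.subgroupOf D) (⟨d, hd⟩ : D)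
    have hn' : ((q.out : D) : G) = d * ((n : D) : G) := congrArg Subtype.val hn
    have hnN : ((n : D) : G) ∈ N := Subgroup.mem_subgroupOf.1 n.2
    set v : G := ((n : D) : G) with hv
    have key : ∀ z ∈ K, z * (d * v) * z⁻¹ * (d * v)⁻¹ = z * d * z⁻¹ * d⁻¹ := by
      intro z hz
      have h2 := hKN z hz v hnN
      calc z * (d * v) * z⁻¹ * (d * v)⁻¹ = z * d * (v * z⁻¹) * v⁻¹ * d⁻¹ := by group
        _ = z * d * (z⁻¹ * v) * v⁻¹ * d⁻¹ := by
            have : v * z⁻¹ = z⁻¹ * v := by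
              rw [eq_inv_mul_iff_mul_eq, ← mul_assoc, h2]; group
            rw [this]
        _ = z * d * z⁻¹ * d⁻¹ := by group
    rw [hn', key x hx, key y hy] at h1
    exact h1)
  refine hcard.trans ?_
  rw [Nat.card_fun]
  have hQ : Nat.card Q = e := rfl
  rw [hQ]
  exact Nat.pow_le_pow_left (torsion_bound h hr A hA hfa he0) e

/-- the bound for class two sections -/
def bR (r : ℕ) : ℕ := ((r ^ r) ^ r) ^ (r ^ r) * r ^ r

theorem pow_pow_mono {e f r : ℕ} (h : e ≤ f) (he : e ≠ 0) : (e ^ r) ^ e ≤ (f ^ r) ^ f :=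
  (Nat.pow_le_pow_left (Nat.pow_le_pow_left h r) e).trans
    (Nat.pow_le_pow_right (Nat.pow_pos (lt_of_lt_of_le (Nat.pos_of_ne_zero he) h)) h)

theorem class_two_bound [Finite G] (h : Heil θ) {r : ℕ} (hr : θ 1 = r) (A D : Subgroup G)
    (hfa : ∀ a ∈ A, θ a = θ 1 → a = 1) (hAD : A ≤ D)
    (hcent : ∀ a ∈ A, ∀ d ∈ D, a * d = d * a)
    (hz : ∀ x ∈ D, (∀ y ∈ D, x * y = y * x) → x ∈ A)
    (hcl : ∀ x ∈ D, ∀ y ∈ D, x * y * x⁻¹ * y⁻¹ ∈ A) : A.relIndex D ≤ bR r := by
  classical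
  have hA : ∀ a ∈ A, ∀ b ∈ A, a * b = b * a := fun a ha b hb => hcent a ha b (hAD hb)
  -- a maximal commutative subgroup
  obtain ⟨B, hB⟩ := (Set.toFinite {B : Subgroup G | A ≤ B ∧ B ≤ D ∧
    ∀ a ∈ B, ∀ b ∈ B, a * b = b * a}).exists_maximal ⟨A, le_rfl, hAD, hA⟩
  obtain ⟨⟨hAB, hBD, hBc⟩, hmax⟩ := hB
  have hCB : ∀ x ∈ D, (∀ b ∈ B, x * b = b * x) → x ∈ B := by
    intro x hx hxb
    have h1 : ∀ u ∈ insert x (B : Set G), ∀ v ∈ insert x (B : Set G), u * v = v * u := by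
      rintro u (rfl | hu) v (rfl | hv)
      · rfl
      · exact hxb v hv
      · exact (hxb u hu).symm
      · exact hBc u hu v hv
    have h2 := Subgroup.isMulCommutative_closure h1
    have h3 : Subgroup.closure (insert x (B : Set G)) ∈ {B : Subgroup G | A ≤ B ∧ B ≤ D ∧
        ∀ a ∈ B, ∀ b ∈ B, a * b = b * a} := by
      refine ⟨hAB.trans fun b hb => Subgroup.subset_closure (Set.mem_insert_of_mem _ hb), ?_, ?_⟩
      · rw [Subgroup.closure_le]
        rintro u (rfl | hu)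
        · exact hx
        · exact hBD hu
      · intro a ha b hb
        exact congrArg Subtype.val (h2.is_comm.comm ⟨a, ha⟩ ⟨b, hb⟩)
    have h4 := hmax h3 (fun b hb => Subgroup.subset_closure (Set.mem_insert_of_mem _ hb))
    exact h4 (Subgroup.subset_closure (Set.mem_insert _ _))
  have hBn : ∀ x ∈ D, ∀ b ∈ B, x * b * x⁻¹ ∈ B := by
    intro x hx b hb
    have h1 := mul_mem (hAB (hcl x hx b (hBD hb))) hb
    rwa [inv_mul_cancel_right] at h1
  have hBr : B.relIndex D ≤ r ^ r := by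
    refine act_bound h hr B D B hBc hBn ?_
    intro x hx y hy hxy
    have hcomm : ∀ b ∈ B, x * b * x⁻¹ = y * b * y⁻¹ := by
      intro b hb
      have h1 : x * b * x⁻¹ * (y * b * y⁻¹)⁻¹ ∈ A := by
        have h2 := mul_mem (hcl x hx b (hBD hb)) (inv_mem (hcl y hy b (hBD hb)))
        have h3 : x * b * x⁻¹ * b⁻¹ * (y * b * y⁻¹ * b⁻¹)⁻¹ = x * b * x⁻¹ * (y * b * y⁻¹)⁻¹ := by
          group
        rwa [h3] at h2
      exact mul_inv_eq_one.1 (hfa _ h1 (hxy b hb))
    refine hCB _ (mul_mem (inv_mem hx) hy) (fun b hb => ?_)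
    have h1 := hcomm b hb
    calc x⁻¹ * y * b = x⁻¹ * (y * b * y⁻¹) * y := by group
      _ = x⁻¹ * (x * b * x⁻¹) * y := by rw [h1]
      _ = b * (x⁻¹ * y) := by group
  have hAr : A.relIndex B ≤ ((r ^ r) ^ r) ^ (r ^ r) := by
    refine (comm_bound h hr A B D B A hA hfa hcent hBn
      (fun x hx d hd => hcl x (hBD hx) d hd) hBc ?_).trans (pow_pow_mono hBr ?_)
    · intro x hx y hy hxy
      refine hz _ (mul_mem (inv_mem (hBD hx)) (hBD hy)) (fun d hd => ?_)
      have h1 : x * d * x⁻¹ = y * d * y⁻¹ := mul_right_cancel (hxy d hd)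
      calc x⁻¹ * y * d = x⁻¹ * (y * d * y⁻¹) * y := by group
        _ = x⁻¹ * (x * d * x⁻¹) * y := by rw [h1]
        _ = d * (x⁻¹ * y) := by group
    · exact Subgroup.index_ne_zero_of_finite
  rw [← Subgroup.relIndex_mul_relIndex A B D hAB hBD]
  exact Nat.mul_le_mul hAr hBr

/-- the explicit bound of the main theorem -/
def bJ (r : ℕ) : ℕ := (bR r ^ r) ^ bR r * bR r ^ bR r * r ^ r

/-- `θ` is not constant on any nontrivial normal subgroup. -/
def Faithful (θ : G → ℂ) : Prop :=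
  ∀ N : Subgroup G, N.Normal → (∀ x ∈ N, θ x = θ 1) → N = ⊥

/-- On a commutative normal subgroup only the identity has value `θ 1`. -/
theorem faithful_comm [Finite G] (h : Heil θ) (hf : Faithful θ) {A : Subgroup G} (hn : A.Normal)
    (hA : ∀ a ∈ A, ∀ b ∈ A, a * b = b * a) {a : G} (ha : a ∈ A) (ha1 : θ a = θ 1) : a = 1 := by
  classical
  let _ : CommGroup A := commGroupOf A hA
  let _ : Fintype A := Fintype.ofFinite A
  let φ : A →* G := A.subtype
  -- the subgroup of all elements of `A` with value `θ 1`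
  let N : Subgroup G :=
    { carrier := {x | x ∈ A ∧ θ x = θ 1}
      one_mem' := ⟨one_mem _, rfl⟩
      mul_mem' := by
        rintro x y ⟨hx, hx1⟩ ⟨hy, hy1⟩
        refine ⟨mul_mem hx hy, ?_⟩
        have h1 : ∀ κ ∈ supp h φ, κ (⟨x, hx⟩ * ⟨y, hy⟩) = 1 := by
          intro κ hκ
          have hk := (mem_supp h φ κ).1 hκ
          rw [map_mul, ker_char h φ (a := ⟨x, hx⟩) hx1 hk, ker_char h φ (a := ⟨y, hy⟩) hy1 hk,
            one_mul]
        exact eq_one_of_supp h φ h1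
      inv_mem' := by
        rintro x ⟨hx, hx1⟩
        refine ⟨inv_mem hx, ?_⟩
        have h1 : ∀ κ ∈ supp h φ, κ (⟨x, hx⟩⁻¹) = 1 := by
          intro κ hκ
          have hk := (mem_supp h φ κ).1 hκ
          rw [map_inv, ker_char h φ (a := ⟨x, hx⟩) hx1 hk, inv_one]
        exact eq_one_of_supp h φ h1 }
  have hN : N = ⊥ := by
    refine hf N ⟨?_⟩ (fun x hx => hx.2)
    rintro x ⟨hx, hx1⟩ g
    exact ⟨hn.conj_mem x hx g, by rw [h.conj, hx1]⟩
  have : a ∈ N := ⟨ha, ha1⟩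
  rw [hN] at this
  exact Subgroup.mem_bot.1 this

/-- **Jordan type theorem for Heilbronn class functions.** -/
theorem jordan [Finite G] (h : Heil θ) {r : ℕ} (hr : θ 1 = r) (hf : Faithful θ) :
    ∃ A T : Subgroup G, A.Normal ∧ T.Normal ∧ A ≤ T ∧ (∀ a ∈ A, ∀ t ∈ T, a * t = t * a) ∧
      T.index ≤ bJ r ∧ ∀ N : Subgroup G, N.Normal → N ≤ T → Group.IsSolvable N → N ≤ A := by
  classical
  -- a maximal commutative normal subgroup
  obtain ⟨A, hAmax⟩ := (Set.toFinite {A : Subgroup G | A.Normal ∧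
    ∀ a ∈ A, ∀ b ∈ A, a * b = b * a}).exists_maximal ⟨⊥, inferInstance, by
      intro a ha b hb
      rw [Subgroup.mem_bot.1 ha, Subgroup.mem_bot.1 hb]⟩
  obtain ⟨⟨hAn, hA⟩, hAm⟩ := hAmax
  have hfa : ∀ a ∈ A, θ a = θ 1 → a = 1 := fun a ha ha1 => faithful_comm h hf hAn hA ha ha1
  set C := Subgroup.centralizer (A : Set G) with hC
  have hCn : C.Normal := inferInstance
  have hmemC : ∀ x, x ∈ C ↔ ∀ a ∈ A, a * x = x * a := fun x => Subgroup.mem_centralizer_iff
  have hAC : A ≤ C := fun a ha => (hmemC a).2 fun b hb => hA b hb a ha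
  have hCi : C.index ≤ r ^ r := by
    rw [← Subgroup.relIndex_top_right]
    refine act_bound h hr A ⊤ C hA (fun x _ b hb => hAn.conj_mem b hb x) ?_
    intro x _ y _ hxy
    refine (hmemC _).2 fun b hb => ?_
    have h1 : x * b * x⁻¹ = y * b * y⁻¹ := mul_inv_eq_one.1 (hfa _
      (mul_mem (hAn.conj_mem b hb x) (inv_mem (hAn.conj_mem b hb y))) (hxy b hb))
    calc b * (x⁻¹ * y) = x⁻¹ * (x * b * x⁻¹) * y := by group
      _ = x⁻¹ * (y * b * y⁻¹) * y := by rw [h1]
      _ = x⁻¹ * y * b := by group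
  -- a maximal normal subgroup of `C` which is commutative modulo `A`
  obtain ⟨D, hDmax⟩ := (Set.toFinite {D : Subgroup G | D.Normal ∧ A ≤ D ∧ D ≤ C ∧
    ∀ x ∈ D, ∀ y ∈ D, x * y * x⁻¹ * y⁻¹ ∈ A}).exists_maximal ⟨A, hAn, le_rfl, hAC, by
      intro x hx y hy
      exact mul_mem (mul_mem (mul_mem hx hy) (inv_mem hx)) (inv_mem hy)⟩
  obtain ⟨⟨hDn, hAD, hDC, hcl⟩, hDm⟩ := hDmax
  have hcent : ∀ a ∈ A, ∀ d ∈ D, a * d = d * a := fun a ha d hd => (hmemC d).1 (hDC hd) a ha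
  have hz : ∀ x ∈ D, (∀ y ∈ D, x * y = y * x) → x ∈ A := by
    intro x hx hxy
    have h1 : D ⊓ Subgroup.centralizer (D : Set G) ∈ {A : Subgroup G | A.Normal ∧
        ∀ a ∈ A, ∀ b ∈ A, a * b = b * a} := by
      refine ⟨inferInstance, ?_⟩
      rintro a ⟨ha, -⟩ b ⟨-, hb⟩
      exact Subgroup.mem_centralizer_iff.1 hb a ha
    have h2 : A ≤ D ⊓ Subgroup.centralizer (D : Set G) := fun a ha =>
      ⟨hAD ha, Subgroup.mem_centralizer_iff.2 fun d hd => (hcent a ha d hd).symm⟩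
    exact hAm h1 h2 ⟨hx, Subgroup.mem_centralizer_iff.2 fun d hd => (hxy d hd).symm⟩
  set m := A.relIndex D with hm
  have hm0 : m ≠ 0 := Subgroup.index_ne_zero_of_finite
  have hmR : m ≤ bR r := class_two_bound h hr A D hfa hAD hcent hz hcl
  -- the kernel of the action of `C` on `D / A`
  let E : Subgroup G :=
    { carrier := {x | x ∈ C ∧ ∀ d ∈ D, x * d * x⁻¹ * d⁻¹ ∈ A}
      one_mem' := ⟨one_mem _, fun d _ => by simp⟩
      mul_mem' := by
        rintro x y ⟨hx, hx1⟩ ⟨hy, hy1⟩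
        refine ⟨mul_mem hx hy, fun d hd => ?_⟩
        have h1 := hx1 _ (hDn.conj_mem d hd y)
        have h2 := mul_mem h1 (hy1 d hd)
        have e : x * (y * d * y⁻¹) * x⁻¹ * (y * d * y⁻¹)⁻¹ * (y * d * y⁻¹ * d⁻¹)
            = x * y * d * (x * y)⁻¹ * d⁻¹ := by group
        rwa [e] at h2
      inv_mem' := by
        rintro x ⟨hx, hx1⟩
        refine ⟨inv_mem hx, fun d hd => ?_⟩
        have h1 := inv_mem (hx1 _ (hDn.conj_mem d hd x⁻¹))
        have e : (x * (x⁻¹ * d * x⁻¹⁻¹) * x⁻¹ * (x⁻¹ * d * x⁻¹⁻¹)⁻¹)⁻¹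
            = x⁻¹ * d * x⁻¹⁻¹ * d⁻¹ := by group
        rwa [e] at h1 }
  have hEC : E ≤ C := fun x hx => hx.1
  have hEi : E.relIndex C ≤ m ^ m := by
    let Q := D ⧸ A.subgroupOf D
    let f : G → (Q → Q) := fun x q => if hx : x ∈ C then
      QuotientGroup.mk (⟨x * (q.out : D) * x⁻¹, hDn.conj_mem _ (q.out : D).2 x⟩ : D) else q
    have h1 := relIndex_le_of_fun (H := E) (K := C) f (by
      intro x hx y hy hxy
      refine ⟨mul_mem (inv_mem hx) hy, fun d hd => ?_⟩
      let q : Q := QuotientGroup.mk (⟨d, hd⟩ : D)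
      have h1 := congrFun hxy q
      simp only [f, dif_pos hx, dif_pos hy] at h1
      obtain ⟨n, hn⟩ := QuotientGroup.mk_out_eq_mul (A.subgroupOf D) (⟨d, hd⟩ : D)
      have hn' : ((q.out : D) : G) = d * ((n : D) : G) := congrArg Subtype.val hn
      have hnA : ((n : D) : G) ∈ A := Subgroup.mem_subgroupOf.1 n.2
      set v : G := ((n : D) : G) with hv
      have h2 := Subgroup.mem_subgroupOf.1 (QuotientGroup.eq.1 h1)
      have h3 : (x * ((q.out : D) : G) * x⁻¹)⁻¹ * (y * ((q.out : D) : G) * y⁻¹) ∈ A := h2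
      rw [hn'] at h3
      -- `x`, `y` commute with `v`
      have hxv : v * x⁻¹ = x⁻¹ * v := by
        have := (hmemC x).1 hx v hnA
        rw [eq_inv_mul_iff_mul_eq, ← mul_assoc, ← this]; group
      have hyv : v * y⁻¹ = y⁻¹ * v := by
        have := (hmemC y).1 hy v hnA
        rw [eq_inv_mul_iff_mul_eq, ← mul_assoc, ← this]; group
      have h4 : (x * d * x⁻¹)⁻¹ * (y * d * y⁻¹) ∈ A := by
        have e1 : (x * (d * v) * x⁻¹)⁻¹ * (y * (d * v) * y⁻¹)
            = v⁻¹ * ((x * d * x⁻¹)⁻¹ * (y * d * y⁻¹)) * v := by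
          have e2 : x * (d * v) * x⁻¹ = x * d * x⁻¹ * v := by
            calc x * (d * v) * x⁻¹ = x * d * (v * x⁻¹) := by group
              _ = _ := by rw [hxv]; group
          have e3 : y * (d * v) * y⁻¹ = y * d * y⁻¹ * v := by
            calc y * (d * v) * y⁻¹ = y * d * (v * y⁻¹) := by group
              _ = _ := by rw [hyv]; group
          rw [e2, e3]; group
        rw [e1] at h3
        have h5 := mul_mem (mul_mem hnA h3) (inv_mem hnA)
        have e6 : v * (v⁻¹ * ((x * d * x⁻¹)⁻¹ * (y * d * y⁻¹)) * v) * v⁻¹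
            = (x * d * x⁻¹)⁻¹ * (y * d * y⁻¹) := by group
        rwa [e6] at h5
      -- conjugate by `x⁻¹` and by `d`
      have h5 := hAn.conj_mem _ (hAn.conj_mem _ h4 x⁻¹) d
      have e7 : d * (x⁻¹ * ((x * d * x⁻¹)⁻¹ * (y * d * y⁻¹)) * x⁻¹⁻¹) * d⁻¹
          = x⁻¹ * y * d * (x⁻¹ * y)⁻¹ * d⁻¹ := by group
      rwa [e7] at h5)
    refine h1.trans (le_of_eq ?_)
    rw [Nat.card_fun]
    rfl
  -- the centraliser of `D`
  set T := Subgroup.centralizer (D : Set G) with hT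
  have hTn : T.Normal := inferInstance
  have hmemT : ∀ x, x ∈ T ↔ ∀ d ∈ D, d * x = x * d := fun x => Subgroup.mem_centralizer_iff
  have hTE : T ≤ E := by
    intro x hx
    refine ⟨(hmemC x).2 fun a ha => (hmemT x).1 hx a (hAD ha), fun d hd => ?_⟩
    have h1 := (hmemT x).1 hx d hd
    have : x * d * x⁻¹ * d⁻¹ = 1 := by rw [← h1]; group
    rw [this]; exact one_mem _
  have hTi : T.relIndex E ≤ (m ^ r) ^ m := by
    refine comm_bound h hr A A D E T hA hfa hcent (fun x _ n hn => hAn.conj_mem n hn x)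
      (fun x hx d hd => hx.2 d hd) (fun x hx n hn => ((hmemC x).1 hx.1 n hn).symm) ?_
    intro x hx y hy hxy
    refine (hmemT _).2 fun d hd => ?_
    have h1 : x * d * x⁻¹ = y * d * y⁻¹ := mul_right_cancel (hxy d hd)
    calc d * (x⁻¹ * y) = x⁻¹ * (x * d * x⁻¹) * y := by group
      _ = x⁻¹ * (y * d * y⁻¹) * y := by rw [h1]
      _ = x⁻¹ * y * d := by group
  have hAT : A ≤ T := fun a ha => (hmemT a).2 fun d hd => (hcent a ha d hd).symm
  refine ⟨A, T, hAn, hTn, hAT, ?_, ?_, ?_⟩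
  · intro a ha t ht
    exact (hmemT t).1 ht a (hAD ha)
  · have e1 : T.index = T.relIndex E * E.relIndex C * C.index := by
      rw [Subgroup.relIndex_mul_relIndex T E C hTE hEC,
        ← Subgroup.relIndex_mul_index (hTE.trans hEC)]
    rw [e1]
    unfold bJ
    refine Nat.mul_le_mul (Nat.mul_le_mul (hTi.trans (pow_pow_mono hmR hm0)) (hEi.trans ?_)) hCi
    exact pow_self_le hmR
  · -- solvable normal subgroups
    have key : ∀ k : ℕ, ∀ N : Subgroup G, Nat.card N ≤ k → N.Normal → N ≤ T → Group.IsSolvable N →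
        N ≤ A := by
      intro k
      induction k with
      | zero =>
        intro N hk _ _ _
        exact absurd hk (by have := Nat.card_pos (α := N); omega)
      | succ k ih =>
        intro N hk hNn hNT hNs
        by_cases hbot : N = ⊥
        · rw [hbot]; exact bot_le
        -- the derived subgroup
        have hder : ⁅N, N⁆ < N := by
          have hne : Nontrivial N := (Subgroup.nontrivial_iff_ne_bot N).2 hbot
          have h1 := Group.IsSolvable.commutator_lt_top_of_nontrivial N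
          refine lt_of_le_of_ne (Subgroup.commutator_le_left N N) (fun heq => ?_)
          apply h1.ne
          have h2 : (commutator N).map N.subtype = (⊤ : Subgroup N).map N.subtype := by
            rw [commutator_def, Subgroup.map_commutator, ← MonoidHom.range_eq_map,
              Subgroup.range_subtype]
            exact heq
          exact Subgroup.map_injective N.subtype_injective h2
        have hcomA : ⁅N, N⁆ ≤ A := by
          refine ih ⁅N, N⁆ ?_ inferInstance (hder.le.trans hNT) ?_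
          · have h1 : Nat.card (⁅N, N⁆ : Subgroup G) < Nat.card N := by
              have := Set.ncard_lt_ncard (s := ((⁅N, N⁆ : Subgroup G) : Set G)) (t := (N : Set G))
                hder (Set.toFinite _)
              exact this
            omega
          · exact Group.isSolvable_of_isSolvable_injective (f := Subgroup.inclusion hder.le)
              (Subgroup.inclusion_injective _)
        -- `D ⊔ N` is commutative modulo `A`
        have hNC : N ≤ C := fun x hx => (hTE (hNT hx)).1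
        have hsup : D ⊔ N ∈ {D : Subgroup G | D.Normal ∧ A ≤ D ∧ D ≤ C ∧
            ∀ x ∈ D, ∀ y ∈ D, x * y * x⁻¹ * y⁻¹ ∈ A} := by
          refine ⟨inferInstance, hAD.trans le_sup_left, sup_le hDC hNC, ?_⟩
          intro x hx y hy
          obtain ⟨d, hd, n, hn, rfl⟩ := Subgroup.mem_sup_of_normal_right.1 hx
          obtain ⟨d', hd', n', hn', rfl⟩ := Subgroup.mem_sup_of_normal_right.1 hy
          have c1 : ∀ u ∈ D, ∀ v ∈ N, v * u = u * v := fun u hu v hv =>
            ((hmemT v).1 (hNT hv) u hu).symm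
          have e1 : d * n * (d' * n') * (d * n)⁻¹ * (d' * n')⁻¹
              = (d * d' * d⁻¹ * d'⁻¹) * (n * n' * n⁻¹ * n'⁻¹) := by
            have a1 := c1 d' hd' n hn
            have a2 := c1 d⁻¹ (inv_mem hd) (n * n' * n⁻¹) (mul_mem (mul_mem hn hn') (inv_mem hn))
            have a3 := c1 d'⁻¹ (inv_mem hd') (n * n' * n⁻¹ * n'⁻¹)
              (mul_mem (mul_mem (mul_mem hn hn') (inv_mem hn)) (inv_mem hn'))
            calc d * n * (d' * n') * (d * n)⁻¹ * (d' * n')⁻¹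
                = d * (n * d') * n' * n⁻¹ * d⁻¹ * n'⁻¹ * d'⁻¹ := by group
              _ = d * (d' * n) * n' * n⁻¹ * d⁻¹ * n'⁻¹ * d'⁻¹ := by rw [a1]
              _ = d * d' * ((n * n' * n⁻¹) * d⁻¹) * n'⁻¹ * d'⁻¹ := by group
              _ = d * d' * (d⁻¹ * (n * n' * n⁻¹)) * n'⁻¹ * d'⁻¹ := by rw [a2]
              _ = d * d' * d⁻¹ * ((n * n' * n⁻¹ * n'⁻¹) * d'⁻¹) := by group
              _ = d * d' * d⁻¹ * (d'⁻¹ * (n * n' * n⁻¹ * n'⁻¹)) := by rw [a3]
              _ = _ := by group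
          rw [e1]
          refine mul_mem (hcl d hd d' hd') (hcomA ?_)
          exact Subgroup.commutator_mem_commutator hn hn'
        have hle := hDm hsup le_sup_left
        intro x hx
        refine hz x (hle (Subgroup.mem_sup_right hx)) (fun y hy => ?_)
        exact ((hmemT x).1 (hNT hx) y hy).symm
    intro N hNn hNT hNs
    exact key _ N le_rfl hNn hNT hNs

/-- **Solvable groups**: an abelian normal subgroup of index at most `bJ r`. -/
theorem jordan_solvable [Finite G] [Group.IsSolvable G] (h : Heil θ) {r : ℕ} (hr : θ 1 = r)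
    (hf : Faithful θ) :
    ∃ A : Subgroup G, A.Normal ∧ (∀ a ∈ A, ∀ b ∈ A, a * b = b * a) ∧ A.index ≤ bJ r := by
  obtain ⟨A, T, hAn, hTn, hAT, hc, hi, hs⟩ := jordan h hr hf
  have h1 : T = A := le_antisymm (hs T hTn le_rfl inferInstance) hAT
  subst h1
  exact ⟨T, hAn, fun a ha b hb => hc a ha b hb, hi⟩

end Pool.Agent.H72.Jordan
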