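import Pool.Agent.H72.Cover.Heis

/-!
Faithful Heilbronn class functions: index bounds.
-/

open Finset

namespace Pool.Agent.H72.Jordan

open Pool.Agent.H7.HB Pool.Agent.H72.Cover

variable {G : Type} [Group G] {θ : G → ℂ}

/-- bound of an index by a function separating cosets -/
theorem relIndex_le_of_fun {H K : Subgroup G} {S : Type} [Finite S] (f : G → S)
    (hf : ∀ x ∈ K, ∀ y ∈ K, f x = f y → x⁻¹ * y ∈ H) : H.relIndex K ≤ Nat.card S := by
  unfold Subgroup.relIndex Subgroup.index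
  refine Nat.card_le_card_of_injective (fun q : K ⧸ H.subgroupOf K => f (q.out : K)) ?_
  intro q q' hq
  have h1 := hf _ (q.out).2 _ (q'.out).2 hq
  rw [← q.out_eq', ← q'.out_eq']
  exact QuotientGroup.eq.2 (Subgroup.mem_subgroupOf.2 h1)

theorem pow_self_le {s r : ℕ} (h : s ≤ r) : s ^ s ≤ r ^ r := by
  rcases Nat.eq_zero_or_pos s with rfl | hs
  · rw [pow_zero]
    rcases Nat.eq_zero_or_pos r with rfl | hr
    · simp
    · exact Nat.pow_pos hr
  · exact (Nat.pow_le_pow_left h s).trans (Nat.pow_le_pow_right (hs.trans_le h) h)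

section supp

variable {A : Type} [CommGroup A] [Fintype A]

open Classical in
/-- the constituents of the restriction to a commutative group -/
noncomputable def supp (h : Heil θ) (φ : A →* G) : Finset (A →* ℂˣ) :=
  Finset.univ.filter fun κ => mult h φ κ ≠ 0

theorem mem_supp (h : Heil θ) (φ : A →* G) (κ : A →* ℂˣ) : κ ∈ supp h φ ↔ mult h φ κ ≠ 0 := by
  classical
  simp [supp]

theorem card_supp_le (h : Heil θ) (φ : A →* G) {r : ℕ} (hr : θ 1 = r) : (supp h φ).card ≤ r := by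
  classical
  have h3 := sum_mult h φ
  rw [hr] at h3
  have h4 : r = ∑ κ : A →* ℂˣ, mult h φ κ := by exact_mod_cast h3
  rw [h4]
  calc (supp h φ).card = ∑ κ ∈ supp h φ, 1 := by simp
    _ ≤ ∑ κ ∈ supp h φ, mult h φ κ := Finset.sum_le_sum fun κ hκ =>
        Nat.one_le_iff_ne_zero.2 ((mem_supp h φ κ).1 hκ)
    _ ≤ ∑ κ : A →* ℂˣ, mult h φ κ := Finset.sum_le_sum_of_subset (Finset.subset_univ _)

theorem eq_one_of_supp (h : Heil θ) (φ : A →* G) {a : A} (ha : ∀ κ ∈ supp h φ, κ a = 1) :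
    θ (φ a) = θ 1 := by
  have h1 := expand h φ a
  have h2 := expand h φ 1
  have h3 : ∀ κ : A →* ℂˣ, (mult h φ κ : ℂ) * ((κ a : ℂˣ) : ℂ)
      = (mult h φ κ : ℂ) * ((κ 1 : ℂˣ) : ℂ) := by
    intro κ
    by_cases h0 : mult h φ κ = 0
    · rw [h0]; simp
    · rw [ha κ ((mem_supp h φ κ).2 h0), map_one]
  simp_rw [h3] at h1
  rw [← h2, map_one] at h1
  exact h1

theorem supp_comp (h : Heil θ) (φ : A →* G) (g : G) (σ : A →* A)
    (hσ : ∀ a, g * φ a * g⁻¹ = φ (σ a)) {κ : A →* ℂˣ} (hκ : κ ∈ supp h φ) :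
    κ.comp σ ∈ supp h φ := by
  rw [mem_supp] at hκ ⊢
  have := mult_le_conj h φ g σ hσ κ
  omega

end supp

/-- the commutative group structure of a subgroup with commuting elements -/
abbrev commGroupOf (B : Subgroup G) (hB : ∀ a ∈ B, ∀ b ∈ B, a * b = b * a) : CommGroup B :=
  { (inferInstance : Group B) with
    mul_comm := fun x y => Subtype.ext (hB x x.2 y y.2) }

/-- **Orbit bound**: a group normalising a commutative subgroup permutes the at most `r`
constituents. -/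
theorem act_bound [Finite G] (h : Heil θ) {r : ℕ} (hr : θ 1 = r) (B K H : Subgroup G)
    (hB : ∀ a ∈ B, ∀ b ∈ B, a * b = b * a) (hK : ∀ x ∈ K, ∀ b ∈ B, x * b * x⁻¹ ∈ B)
    (hH : ∀ x ∈ K, ∀ y ∈ K, (∀ b ∈ B, θ (x * b * x⁻¹ * (y * b * y⁻¹)⁻¹) = θ 1) → x⁻¹ * y ∈ H) :
    H.relIndex K ≤ r ^ r := by
  classical
  let _ : CommGroup B := commGroupOf B hB
  let _ : Fintype B := Fintype.ofFinite B
  let φ : B →* G := B.subtype
  let σ : K → (B →* B) := fun x =>
    { toFun := fun b => ⟨x * b * (x : G)⁻¹, hK x x.2 b b.2⟩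
      map_one' := by
        apply Subtype.ext
        change (x : G) * 1 * (x : G)⁻¹ = 1
        group
      map_mul' := by
        intro a b
        apply Subtype.ext
        change (x : G) * (a * b) * (x : G)⁻¹ = (x * a * (x : G)⁻¹) * (x * b * (x : G)⁻¹)
        group }
  have hσ : ∀ (x : K) (b : B), (x : G) * φ b * (x : G)⁻¹ = φ (σ x b) := fun _ _ => rfl
  let f : G → (supp h φ → supp h φ) := fun x κ =>
    if hx : x ∈ K then ⟨(κ : B →* ℂˣ).comp (σ ⟨x, hx⟩), supp_comp h φ x _ (hσ ⟨x, hx⟩) κ.2⟩ else κ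
  have h1 : H.relIndex K ≤ Nat.card (supp h φ → supp h φ) := by
    refine relIndex_le_of_fun f ?_
    intro x hx y hy hxy
    refine hH x hx y hy (fun b hb => ?_)
    have h2 : ∀ κ ∈ supp h φ, κ (σ ⟨x, hx⟩ ⟨b, hb⟩ * (σ ⟨y, hy⟩ ⟨b, hb⟩)⁻¹) = 1 := by
      intro κ hκ
      have h3 := congrFun hxy ⟨κ, hκ⟩
      have h4 : κ.comp (σ ⟨x, hx⟩) = κ.comp (σ ⟨y, hy⟩) := by
        have h5 := congrArg Subtype.val h3
        simp only [f, dif_pos hx, dif_pos hy] at h5
        exact h5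
      have h6 : κ (σ ⟨x, hx⟩ ⟨b, hb⟩) = κ (σ ⟨y, hy⟩ ⟨b, hb⟩) := DFunLike.congr_fun h4 ⟨b, hb⟩
      rw [map_mul, map_inv, h6, mul_inv_cancel]
    exact eq_one_of_supp h φ h2
  refine h1.trans ?_
  rw [Nat.card_fun, Nat.card_eq_fintype_card, Fintype.card_coe]
  exact pow_self_le (card_supp_le h φ hr)

/-- **Torsion bound** for a commutative subgroup on which `θ` is faithful. -/
theorem torsion_bound [Finite G] (h : Heil θ) {r : ℕ} (hr : θ 1 = r) (A : Subgroup G)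
    (hA : ∀ a ∈ A, ∀ b ∈ A, a * b = b * a) (hfa : ∀ a ∈ A, θ a = θ 1 → a = 1) {m : ℕ}
    (hm : m ≠ 0) : Nat.card {a : G // a ∈ A ∧ a ^ m = 1} ≤ m ^ r := by
  classical
  let _ : CommGroup A := commGroupOf A hA
  let _ : Fintype A := Fintype.ofFinite A
  let φ : A →* G := A.subtype
  have : NeZero m := ⟨hm⟩
  let f : {a : G // a ∈ A ∧ a ^ m = 1} → (supp h φ → rootsOfUnity m ℂ) := fun a κ =>
    ⟨(κ : A →* ℂˣ) ⟨a, a.2.1⟩, by
      rw [mem_rootsOfUnity, ← map_pow]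
      have : (⟨a, a.2.1⟩ : A) ^ m = 1 := Subtype.ext a.2.2
      rw [this, map_one]⟩
  have hinj : Function.Injective f := by
    intro a b hab
    have h1 : ∀ κ ∈ supp h φ, κ (⟨a, a.2.1⟩ * (⟨b, b.2.1⟩)⁻¹) = 1 := by
      intro κ hκ
      have h2 := congrArg Subtype.val (congrFun hab ⟨κ, hκ⟩)
      have h3 : κ ⟨a, a.2.1⟩ = κ ⟨b, b.2.1⟩ := h2
      rw [map_mul, map_inv, h3, mul_inv_cancel]
    have h2 := eq_one_of_supp h φ h1
    have h3 : (a : G) * (b : G)⁻¹ = 1 := hfa _ (mul_mem a.2.1 (inv_mem b.2.1)) h2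
    exact Subtype.ext (mul_inv_eq_one.1 h3)
  refine (Nat.card_le_card_of_injective f hinj).trans ?_
  rw [Nat.card_fun, Nat.card_eq_fintype_card (α := supp h φ), Fintype.card_coe]
  refine (Nat.pow_le_pow_left (_root_.card_rootsOfUnity ℂ m) _).trans ?_
  exact Nat.pow_le_pow_right (Nat.pos_of_ne_zero hm) (card_supp_le h φ hr)

end Pool.Agent.H72.Jordan
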